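import Mathlib

/-!
# Forests of left-right pairs in `SL₂(ℕ₀)` have no rootless components

Let `K` be a subfield of `ℂ` which is not contained in `ℝ`, and let `D0` be the set of the
`x + y i ∈ K` with `x, y > 0`. For every left-right pair `(L, R)` of non-identity matrices in
`SL₂(ℕ₀)` every component of the forest `F(L, R)` on `D0` has a root; more precisely, every vertex
`x + y i` has at most `x + 1 / (2 y)` ancestors.

Proof: for a matrix `W = (a b; c d)` in `SL₂(ℕ₀)` put `μ(W) = ⌊b / d⌋ + c d`. Then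
`μ(W T) ≥ μ(W) + 1` for every `T ≠ 1` in `SL₂(ℕ₀)`, and `μ(W) ≤ x + 1 / (2 y)` for every point
`x + y i` in the image of the open first quadrant under `W`.
-/

set_option autoImplicit false

namespace Pool.Agent.Results.MP_b00f03_nt.NoRootlessTrees

open Matrix Matrix.SpecialLinearGroup

/-- The vertex set `D₀`: the elements `x + y i` of `K` with `x > 0` and `y > 0`. -/
def D0 (K : Subfield ℂ) : Set ℂ := {z | z ∈ K ∧ 0 < z.re ∧ 0 < z.im}

/-- The action of a matrix on complex numbers, `T(z) = (a z + b) / (c z + d)`. -/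
noncomputable def act (T : SpecialLinearGroup (Fin 2) ℤ) (z : ℂ) : ℂ :=
  ((T 0 0 : ℤ) * z + (T 0 1 : ℤ)) / ((T 1 0 : ℤ) * z + (T 1 1 : ℤ))

/-- `T` belongs to `SL₂(ℕ₀)`: its entries are nonnegative (and its determinant is `1`). -/
def InSL2N (T : SpecialLinearGroup (Fin 2) ℤ) : Prop := ∀ i j, 0 ≤ T i j

/-- `(L, R)` is a left-right pair: `L` and `R` are non-identity matrices in `SL₂(ℕ₀)` and the images
of `D₀` under `L` and `R` are disjoint. -/
structure LeftRightPair (K : Subfield ℂ) (L R : SpecialLinearGroup (Fin 2) ℤ) : Prop where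
  left_mem : InSL2N L
  right_mem : InSL2N R
  left_ne : L ≠ 1
  right_ne : R ≠ 1
  disj : Disjoint (act L '' D0 K) (act R '' D0 K)

/-- `IsParent K L R z w`: `z` is a parent of `w`, that is `w = L(z)` or `w = R(z)`
(there is an edge `z → w` in the graph `F(L, R)`). -/
def IsParent (K : Subfield ℂ) (L R : SpecialLinearGroup (Fin 2) ℤ) (z w : D0 K) : Prop :=
  (w : ℂ) = act L z ∨ (w : ℂ) = act R z

/-- An orphan is a vertex without parent. -/
def IsOrphan (K : Subfield ℂ) (L R : SpecialLinearGroup (Fin 2) ℤ) (w : D0 K) : Prop :=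
  ∀ z : D0 K, ¬ IsParent K L R z w

/-- The forest `F(L, R)` as an undirected graph; only its connected components are used. -/
def forest (K : Subfield ℂ) (L R : SpecialLinearGroup (Fin 2) ℤ) : SimpleGraph (D0 K) :=
  SimpleGraph.fromRel (IsParent K L R)

/-- A component is rootless if it contains no orphan. -/
def Rootless {K : Subfield ℂ} {L R : SpecialLinearGroup (Fin 2) ℤ}
    (C : (forest K L R).ConnectedComponent) : Prop :=
  ∀ w ∈ C.supp, ¬ IsOrphan K L R w

/-- The ancestors of a vertex: its parent, the parent of its parent, and so on. -/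
def ancestors (K : Subfield ℂ) (L R : SpecialLinearGroup (Fin 2) ℤ) (w : D0 K) : Set (D0 K) :=
  {z | Relation.TransGen (IsParent K L R) z w}

/-! ### Matrices -/

section matrices

variable {W T : SpecialLinearGroup (Fin 2) ℤ}

lemma det_eq (T : SpecialLinearGroup (Fin 2) ℤ) : T 0 0 * T 1 1 - T 0 1 * T 1 0 = 1 := by
  have h := T.det_coe
  rw [Matrix.det_fin_two] at h
  exact h

lemma mul00 : (W * T) 0 0 = W 0 0 * T 0 0 + W 0 1 * T 1 0 := by
  simp [Matrix.mul_apply, Fin.sum_univ_two]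

lemma mul01 : (W * T) 0 1 = W 0 0 * T 0 1 + W 0 1 * T 1 1 := by
  simp [Matrix.mul_apply, Fin.sum_univ_two]

lemma mul10 : (W * T) 1 0 = W 1 0 * T 0 0 + W 1 1 * T 1 0 := by
  simp [Matrix.mul_apply, Fin.sum_univ_two]

lemma mul11 : (W * T) 1 1 = W 1 0 * T 0 1 + W 1 1 * T 1 1 := by
  simp [Matrix.mul_apply, Fin.sum_univ_two]

lemma InSL2N.mul (hW : InSL2N W) (hT : InSL2N T) : InSL2N (W * T) := by
  intro i j
  fin_cases i <;> fin_cases j
  · show 0 ≤ (W * T) 0 0
    rw [mul00]; have := hW 0 0; have := hW 0 1; have := hT 0 0; have := hT 1 0; positivity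
  · show 0 ≤ (W * T) 0 1
    rw [mul01]; have := hW 0 0; have := hW 0 1; have := hT 0 1; have := hT 1 1; positivity
  · show 0 ≤ (W * T) 1 0
    rw [mul10]; have := hW 1 0; have := hW 1 1; have := hT 0 0; have := hT 1 0; positivity
  · show 0 ≤ (W * T) 1 1
    rw [mul11]; have := hW 1 0; have := hW 1 1; have := hT 0 1; have := hT 1 1; positivity

lemma pos00 (hT : InSL2N T) : 1 ≤ T 0 0 := by
  have h := det_eq T
  have h1 := hT 0 0
  have h2 := hT 1 1
  have h3 := mul_nonneg (hT 0 1) (hT 1 0)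
  by_contra hc
  have h4 : T 0 0 = 0 := by omega
  rw [h4] at h
  linarith

lemma pos11 (hT : InSL2N T) : 1 ≤ T 1 1 := by
  have h := det_eq T
  have h1 := hT 0 0
  have h2 := hT 1 1
  have h3 := mul_nonneg (hT 0 1) (hT 1 0)
  by_contra hc
  have h4 : T 1 1 = 0 := by omega
  rw [h4] at h
  linarith

/-- The size `μ(W) = ⌊b / d⌋ + c d`. -/
def size (W : SpecialLinearGroup (Fin 2) ℤ) : ℤ := W 0 1 / W 1 1 + W 1 0 * W 1 1

lemma eq_one_of (hT : InSL2N T) (h01 : T 0 1 = 0) (h10 : T 1 0 = 0) : T = 1 := by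
  have h := det_eq T
  rw [h01, zero_mul, sub_zero] at h
  have h1 := pos00 hT
  have h2 := pos11 hT
  have h3 : T 0 0 = 1 := by nlinarith
  have h4 : T 1 1 = 1 := by rw [h3] at h; linarith
  ext i j
  fin_cases i <;> fin_cases j
  · simpa using h3
  · simpa using h01
  · simpa using h10
  · simpa using h4

lemma size_one : size 1 = 0 := by simp [size]

lemma size_nonneg (hW : InSL2N W) : 0 ≤ size W := by
  unfold size
  have h1 := Int.ediv_nonneg (hW 0 1) (hW 1 1)
  have h2 := mul_nonneg (hW 1 0) (hW 1 1)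
  linarith

/-- The size grows under multiplication by non-identity matrices. -/
lemma size_mul (hW : InSL2N W) (hT : InSL2N T) (h1 : T ≠ 1) : size W + 1 ≤ size (W * T) := by
  have hd := det_eq W
  have hdT := det_eq T
  have a1 := pos00 hW
  have d1 := pos11 hW
  have p1 := pos00 hT
  have s1 := pos11 hT
  have b0 := hW 0 1
  have c0 := hW 1 0
  have q0 := hT 0 1
  have r0 := hT 1 0
  have hd' : 1 ≤ (W * T) 1 1 := pos11 (hW.mul hT)
  -- the quotient does not decrease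
  have hquot : W 0 1 / W 1 1 ≤ (W * T) 0 1 / (W * T) 1 1 := by
    rw [Int.le_ediv_iff_mul_le (by linarith)]
    have e1 : W 0 1 / W 1 1 * W 1 1 ≤ W 0 1 := Int.ediv_mul_le _ (by linarith)
    have e0 : 0 ≤ W 0 1 / W 1 1 := Int.ediv_nonneg b0 (by linarith)
    rw [mul01, mul11]
    generalize W 0 1 / W 1 1 = k at e1 e0 ⊢
    have e2 : k * W 1 0 ≤ W 0 0 := by
      have : (k * W 1 0) * W 1 1 ≤ W 0 0 * W 1 1 := by nlinarith
      exact le_of_mul_le_mul_right this (by linarith)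
    nlinarith
  by_cases hr : T 1 0 = 0
  · have hps : T 0 0 = 1 := by
      rw [hr, mul_zero, sub_zero] at hdT
      nlinarith
    have hss : T 1 1 = 1 := by
      rw [hr, mul_zero, sub_zero, hps] at hdT
      linarith
    have hq : 1 ≤ T 0 1 := by
      by_contra hc
      exact h1 (eq_one_of hT (by omega) hr)
    by_cases hc : W 1 0 = 0
    · have hdd : W 1 1 = 1 := by
        rw [hc, mul_zero, sub_zero] at hd
        nlinarith
      have haa : W 0 0 = 1 := by
        rw [hc, mul_zero, sub_zero, hdd] at hd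
        linarith
      unfold size
      rw [mul01, mul10, mul11, hc, hdd, haa, hps, hss, hr]
      simp
      linarith
    · have hc1 : 1 ≤ W 1 0 := by omega
      have e3 : W 1 0 * W 1 1 + 1 ≤ (W * T) 1 0 * (W * T) 1 1 := by
        rw [mul10, mul11, hps, hss, hr]
        nlinarith [mul_pos (show 0 < W 1 0 by linarith) (show 0 < T 0 1 by linarith)]
      unfold size
      linarith
  · have hr1 : 1 ≤ T 1 0 := by omega
    have e4 : W 1 0 + W 1 1 ≤ (W * T) 1 0 := by
      rw [mul10]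
      nlinarith
    have e5 : W 1 1 ≤ (W * T) 1 1 := by
      rw [mul11]
      nlinarith
    have e6 : W 1 0 * W 1 1 + 1 ≤ (W * T) 1 0 * (W * T) 1 1 := by
      have : (W 1 0 + W 1 1) * W 1 1 ≤ (W * T) 1 0 * (W * T) 1 1 :=
        mul_le_mul e4 e5 (by linarith) (by linarith)
      nlinarith
    unfold size
    linarith

end matrices

/-! ### The action -/

section action

variable {W T : SpecialLinearGroup (Fin 2) ℤ} {z : ℂ}

lemma denom_ne (hT : InSL2N T) (hx : 0 < z.re) : ((T 1 0 : ℤ) : ℂ) * z + (T 1 1 : ℤ) ≠ 0 := by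
  intro h
  have h1 := congrArg Complex.re h
  simp at h1
  have h2 : (1 : ℝ) ≤ (T 1 1 : ℤ) := by exact_mod_cast pos11 hT
  have h3 : (0 : ℝ) ≤ (T 1 0 : ℤ) := by exact_mod_cast hT 1 0
  nlinarith

lemma normSq_denom (T : SpecialLinearGroup (Fin 2) ℤ) (z : ℂ) :
    Complex.normSq (((T 1 0 : ℤ) : ℂ) * z + (T 1 1 : ℤ)) =
      ((T 1 0 : ℤ) * z.re + (T 1 1 : ℤ)) ^ 2 + ((T 1 0 : ℤ) * z.im) ^ 2 := by
  rw [Complex.normSq_apply]
  simp
  ring

lemma det_real (T : SpecialLinearGroup (Fin 2) ℤ) :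
    ((T 0 0 : ℤ) : ℝ) * (T 1 1 : ℤ) - (T 0 1 : ℤ) * (T 1 0 : ℤ) = 1 := by
  exact_mod_cast det_eq T

lemma act_re (T : SpecialLinearGroup (Fin 2) ℤ) (z : ℂ) :
    (act T z).re = ((T 0 0 : ℤ) * (T 1 0 : ℤ) * (z.re ^ 2 + z.im ^ 2) +
      ((T 0 0 : ℤ) * (T 1 1 : ℤ) + (T 0 1 : ℤ) * (T 1 0 : ℤ)) * z.re + (T 0 1 : ℤ) * (T 1 1 : ℤ)) /
      (((T 1 0 : ℤ) * z.re + (T 1 1 : ℤ)) ^ 2 + ((T 1 0 : ℤ) * z.im) ^ 2) := by
  unfold act
  rw [Complex.div_re, normSq_denom]
  simp
  rw [← add_div]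
  congr 1
  ring

lemma act_im (T : SpecialLinearGroup (Fin 2) ℤ) (z : ℂ) :
    (act T z).im = z.im /
      (((T 1 0 : ℤ) * z.re + (T 1 1 : ℤ)) ^ 2 + ((T 1 0 : ℤ) * z.im) ^ 2) := by
  unfold act
  rw [Complex.div_im, normSq_denom]
  simp
  rw [← sub_div]
  congr 1
  have h := det_real T
  linear_combination z.im * h

lemma den_pos (hT : InSL2N T) (hx : 0 < z.re) :
    0 < ((T 1 0 : ℤ) * z.re + (T 1 1 : ℤ)) ^ 2 + ((T 1 0 : ℤ) * z.im : ℝ) ^ 2 := by
  have h2 : (1 : ℝ) ≤ (T 1 1 : ℤ) := by exact_mod_cast pos11 hT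
  have h3 : (0 : ℝ) ≤ (T 1 0 : ℤ) := by exact_mod_cast hT 1 0
  have h4 : 0 < (T 1 0 : ℤ) * z.re + (T 1 1 : ℤ) := by nlinarith
  positivity

/-- The action maps the open first quadrant into itself. -/
lemma act_pos (hT : InSL2N T) (hx : 0 < z.re) (hy : 0 < z.im) :
    0 < (act T z).re ∧ 0 < (act T z).im := by
  have hden := den_pos (z := z) hT hx
  have h1 : (1 : ℝ) ≤ (T 0 0 : ℤ) := by exact_mod_cast pos00 hT
  have h2 : (1 : ℝ) ≤ (T 1 1 : ℤ) := by exact_mod_cast pos11 hT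
  have h3 : (0 : ℝ) ≤ (T 1 0 : ℤ) := by exact_mod_cast hT 1 0
  have h4 : (0 : ℝ) ≤ (T 0 1 : ℤ) := by exact_mod_cast hT 0 1
  rw [act_re, act_im]
  refine ⟨div_pos ?_ hden, div_pos hy hden⟩
  have h5 : (0 : ℝ) < ((T 0 0 : ℤ) * (T 1 1 : ℤ)) * z.re := by positivity
  have h6 : (0 : ℝ) ≤ (T 0 0 : ℤ) * (T 1 0 : ℤ) * (z.re ^ 2 + z.im ^ 2) := by positivity
  have h7 : (0 : ℝ) ≤ (T 0 1 : ℤ) * (T 1 0 : ℤ) * z.re := by positivity
  have h8 : (0 : ℝ) ≤ (T 0 1 : ℤ) * (T 1 1 : ℤ) := by positivity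
  linarith

lemma act_mem {K : Subfield ℂ} (hT : InSL2N T) (hz : z ∈ D0 K) : act T z ∈ D0 K := by
  obtain ⟨h1, h2, h3⟩ := hz
  obtain ⟨h4, h5⟩ := act_pos hT h2 h3
  refine ⟨?_, h4, h5⟩
  unfold act
  exact div_mem (add_mem (mul_mem (intCast_mem K _) h1) (intCast_mem K _))
    (add_mem (mul_mem (intCast_mem K _) h1) (intCast_mem K _))

lemma act_one (z : ℂ) : act 1 z = z := by simp [act]

/-- The action is compatible with products. -/
lemma act_mul (hT : InSL2N T) (hW : InSL2N W) (hx : 0 < z.re) (hy : 0 < z.im) :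
    act (W * T) z = act W (act T z) := by
  have h1 := denom_ne hT hx
  have h2 := denom_ne (z := act T z) hW (act_pos hT hx hy).1
  have h3 := denom_ne (hW.mul hT) hx
  have e : act T z * (((T 1 0 : ℤ) : ℂ) * z + (T 1 1 : ℤ)) = (T 0 0 : ℤ) * z + (T 0 1 : ℤ) := by
    unfold act
    rw [div_mul_cancel₀ _ h1]
  rw [show act (W * T) z = (((W * T) 0 0 : ℤ) * z + ((W * T) 0 1 : ℤ)) /
    (((W * T) 1 0 : ℤ) * z + ((W * T) 1 1 : ℤ)) from rfl]
  rw [show act W (act T z) = ((W 0 0 : ℤ) * act T z + (W 0 1 : ℤ)) /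
    ((W 1 0 : ℤ) * act T z + (W 1 1 : ℤ)) from rfl]
  rw [div_eq_div_iff h3 h2]
  rw [mul00, mul01, mul10, mul11]
  push_cast
  generalize act T z = u at e
  have hd := det_eq W
  have hdC : ((W 0 0 : ℤ) : ℂ) * (W 1 1 : ℤ) - (W 0 1 : ℤ) * (W 1 0 : ℤ) = 1 := by
    exact_mod_cast hd
  linear_combination (-(((W 0 0 : ℤ) : ℂ) * (W 1 1 : ℤ) - (W 0 1 : ℤ) * (W 1 0 : ℤ))) * e

/-- The size of `W` is bounded on the image of the first quadrant. -/
lemma size_le (hW : InSL2N W) (hx : 0 < z.re) (hy : 0 < z.im) :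
    (size W : ℝ) ≤ (act W z).re + 1 / (2 * (act W z).im) := by
  have hden := den_pos (z := z) hW hx
  have h1 : (1 : ℝ) ≤ (W 0 0 : ℤ) := by exact_mod_cast pos00 hW
  have h2 : (1 : ℝ) ≤ (W 1 1 : ℤ) := by exact_mod_cast pos11 hW
  have h3 : (0 : ℝ) ≤ (W 1 0 : ℤ) := by exact_mod_cast hW 1 0
  have h4 : (0 : ℝ) ≤ (W 0 1 : ℤ) := by exact_mod_cast hW 0 1
  have hd := det_real W
  have hquot : ((W 0 1 / W 1 1 : ℤ) : ℝ) ≤ ((W 0 1 : ℤ) : ℝ) / (W 1 1 : ℤ) := by
    rw [le_div_iff₀ (by linarith)]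
    exact_mod_cast Int.ediv_mul_le (W 0 1) (show W 1 1 ≠ 0 by have := pos11 hW; omega)
  have hre : ((W 0 1 : ℤ) : ℝ) / (W 1 1 : ℤ) ≤ (act W z).re := by
    rw [act_re, div_le_div_iff₀ (by linarith) hden]
    have e : (((W 0 0 : ℤ) : ℝ) * (W 1 0 : ℤ) * (z.re ^ 2 + z.im ^ 2) +
        ((W 0 0 : ℤ) * (W 1 1 : ℤ) + (W 0 1 : ℤ) * (W 1 0 : ℤ)) * z.re +
          (W 0 1 : ℤ) * (W 1 1 : ℤ)) * (W 1 1 : ℤ) -
        ((W 0 1 : ℤ) : ℝ) * (((W 1 0 : ℤ) * z.re + (W 1 1 : ℤ)) ^ 2 + ((W 1 0 : ℤ) * z.im) ^ 2) =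
        (((W 0 0 : ℤ) : ℝ) * (W 1 1 : ℤ) - (W 0 1 : ℤ) * (W 1 0 : ℤ)) *
          ((W 1 0 : ℤ) * (z.re ^ 2 + z.im ^ 2) + (W 1 1 : ℤ) * z.re) := by ring
    rw [hd, one_mul] at e
    have : (0 : ℝ) ≤ (W 1 0 : ℤ) * (z.re ^ 2 + z.im ^ 2) + (W 1 1 : ℤ) * z.re := by positivity
    linarith
  have him : ((W 1 0 * W 1 1 : ℤ) : ℝ) ≤ 1 / (2 * (act W z).im) := by
    rw [act_im, mul_div_assoc', one_div_div, le_div_iff₀ (by positivity)]
    push_cast
    have h5 : (0 : ℝ) ≤ (W 1 0 : ℤ) * z.re := by positivity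
    have h6 : (0 : ℝ) ≤ (W 1 0 : ℤ) * z.im := by positivity
    nlinarith [sq_nonneg (((W 1 1 : ℤ) : ℝ) - (W 1 0 : ℤ) * z.im),
      mul_nonneg h5 (show (0 : ℝ) ≤ (W 1 1 : ℤ) by linarith)]
  unfold size
  push_cast at him ⊢
  linarith

lemma act_inj (hT : InSL2N T) {z w : ℂ} (hz : 0 < z.re) (hw : 0 < w.re) (h : act T z = act T w) :
    z = w := by
  have h1 := denom_ne hT hz
  have h2 := denom_ne hT hw
  unfold act at h
  rw [div_eq_div_iff h1 h2] at h
  have hdC : ((T 0 0 : ℤ) : ℂ) * (T 1 1 : ℤ) - (T 0 1 : ℤ) * (T 1 0 : ℤ) = 1 := by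
    exact_mod_cast det_eq T
  linear_combination h - (z - w) * hdC

end action

/-! ### The forest -/

section forest

variable {K : Subfield ℂ} {L R : SpecialLinearGroup (Fin 2) ℤ}

/-- `z` is the `n`-th ancestor of `w`. -/
inductive Nth (K : Subfield ℂ) (L R : SpecialLinearGroup (Fin 2) ℤ) : ℕ → D0 K → D0 K → Prop
  | zero (w : D0 K) : Nth K L R 0 w w
  | succ {n : ℕ} {y z w : D0 K} (h : IsParent K L R y z) (h' : Nth K L R n z w) :
      Nth K L R (n + 1) y w

lemma parent_unique (h : LeftRightPair K L R) {y y' w : D0 K} (h1 : IsParent K L R y w)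
    (h2 : IsParent K L R y' w) : y = y' := by
  have hd := Set.disjoint_left.1 h.disj
  rcases h1 with h1 | h1 <;> rcases h2 with h2 | h2
  · exact Subtype.ext (act_inj h.left_mem y.2.2.1 y'.2.2.1 (h1.symm.trans h2))
  · exact absurd ⟨_, y'.2, h2.symm⟩ (hd ⟨_, y.2, h1.symm⟩)
  · exact absurd ⟨_, y.2, h1.symm⟩ (hd ⟨_, y'.2, h2.symm⟩)
  · exact Subtype.ext (act_inj h.right_mem y.2.2.1 y'.2.2.1 (h1.symm.trans h2))

lemma nth_unique (h : LeftRightPair K L R) {n : ℕ} : ∀ {y y' w : D0 K}, Nth K L R n y w →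
    Nth K L R n y' w → y = y' := by
  induction n with
  | zero =>
    intro y y' w h1 h2
    cases h1
    cases h2
    rfl
  | succ n ih =>
    intro y y' w h1 h2
    cases h1 with
    | succ a1 b1 =>
      cases h2 with
      | succ a2 b2 =>
        have := ih b1 b2
        subst this
        exact parent_unique h a1 a2

lemma nth_word (h : LeftRightPair K L R) {n : ℕ} : ∀ {y w : D0 K}, Nth K L R n y w →
    ∃ W : SpecialLinearGroup (Fin 2) ℤ, InSL2N W ∧ (n : ℤ) ≤ size W ∧ (w : ℂ) = act W y := by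
  induction n with
  | zero =>
    intro y w h1
    cases h1
    refine ⟨1, ?_, by rw [size_one]; simp, (act_one _).symm⟩
    intro i j
    fin_cases i <;> fin_cases j <;> simp
  | succ n ih =>
    intro y w h1
    cases h1 with
    | succ a1 b1 =>
      obtain ⟨W, hW, hs, hw⟩ := ih b1
      rcases a1 with a1 | a1
      · refine ⟨W * L, hW.mul h.left_mem, ?_, ?_⟩
        · have := size_mul hW h.left_mem h.left_ne
          push_cast
          linarith
        · rw [act_mul h.left_mem hW y.2.2.1 y.2.2.2, ← a1, hw]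
      · refine ⟨W * R, hW.mul h.right_mem, ?_, ?_⟩
        · have := size_mul hW h.right_mem h.right_ne
          push_cast
          linarith
        · rw [act_mul h.right_mem hW y.2.2.1 y.2.2.2, ← a1, hw]

/-- The number of generations above a vertex is bounded. -/
lemma nth_le (h : LeftRightPair K L R) {n : ℕ} {y w : D0 K} (h1 : Nth K L R n y w) :
    (n : ℝ) ≤ (w : ℂ).re + 1 / (2 * (w : ℂ).im) := by
  obtain ⟨W, hW, hs, hw⟩ := nth_word h h1
  rw [hw]
  refine le_trans ?_ (size_le hW y.2.2.1 y.2.2.2)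
  exact_mod_cast hs

lemma nth_snoc {n : ℕ} : ∀ {y z w : D0 K}, Nth K L R n y z → IsParent K L R z w →
    Nth K L R (n + 1) y w := by
  induction n with
  | zero =>
    intro y z w h1 h2
    cases h1
    exact Nth.succ h2 (Nth.zero w)
  | succ n ih =>
    intro y z w h1 h2
    cases h1 with
    | succ a1 b1 => exact Nth.succ a1 (ih b1 h2)

lemma ancestor_nth {y w : D0 K} (h : y ∈ ancestors K L R w) : ∃ n : ℕ, 1 ≤ n ∧ Nth K L R n y w := by
  have h0 : Relation.TransGen (IsParent K L R) y w := h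
  clear h
  induction h0 with
  | single h => exact ⟨1, le_refl _, Nth.succ h (Nth.zero _)⟩
  | tail _ h ih =>
    obtain ⟨n, hn, h'⟩ := ih
    exact ⟨n + 1, by omega, nth_snoc h' h⟩

/-- Every vertex has finitely many ancestors, at most `x + 1 / (2 y)` for the vertex `x + y i`. -/
theorem ancestors_finite (h : LeftRightPair K L R) (w : D0 K) :
    (ancestors K L R w).Finite ∧
      ((ancestors K L R w).ncard : ℝ) ≤ (w : ℂ).re + 1 / (2 * (w : ℂ).im) := by
  classical
  set B : ℝ := (w : ℂ).re + 1 / (2 * (w : ℂ).im) with hB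
  have hB0 : 0 ≤ B := by
    have h1 := w.2.2.1
    have h2 := w.2.2.2
    rw [hB]
    positivity
  have key : ∀ y ∈ ancestors K L R w, ∃ n : ℕ, n ∈ Finset.Icc 1 ⌊B⌋₊ ∧ Nth K L R n y w := by
    intro y hy
    obtain ⟨n, hn, h1⟩ := ancestor_nth hy
    exact ⟨n, Finset.mem_Icc.2 ⟨hn, Nat.le_floor (nth_le h h1)⟩, h1⟩
  choose! f hf hf' using key
  have hinj : Set.InjOn f (ancestors K L R w) := by
    intro y hy y' hy' he
    have h1 := hf' y hy
    have h2 := hf' y' hy'
    rw [he] at h1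
    exact nth_unique h h1 h2
  have himg : f '' ancestors K L R w ⊆ (Finset.Icc 1 ⌊B⌋₊ : Finset ℕ) := by
    rintro _ ⟨y, hy, rfl⟩
    exact hf y hy
  have hfin : (ancestors K L R w).Finite :=
    Set.Finite.of_finite_image ((Finset.finite_toSet _).subset himg) hinj
  refine ⟨hfin, ?_⟩
  have h1 : (ancestors K L R w).ncard ≤ ⌊B⌋₊ := by
    rw [← hinj.ncard_image]
    refine (Set.ncard_le_ncard himg (Finset.finite_toSet _)).trans ?_
    rw [Set.ncard_coe_finset, Nat.card_Icc]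
    omega
  exact (Nat.cast_le.2 h1).trans (Nat.floor_le hB0)

lemma parent_ne (h : LeftRightPair K L R) {y w : D0 K} (h1 : IsParent K L R y w) : y ≠ w := by
  rintro rfl
  have hn : ∀ n : ℕ, Nth K L R n y y := by
    intro n
    induction n with
    | zero => exact Nth.zero y
    | succ n ih => exact Nth.succ h1 ih
  obtain ⟨n, hn'⟩ := exists_nat_gt ((y : ℂ).re + 1 / (2 * (y : ℂ).im))
  exact absurd (nth_le h (hn n)) (not_le.2 hn')

/-- Every vertex is connected with an orphan. -/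
theorem exists_orphan (h : LeftRightPair K L R) (w : D0 K) :
    ∃ v : D0 K, (forest K L R).Reachable v w ∧ IsOrphan K L R v := by
  by_contra hcon
  push Not at hcon
  have hn : ∀ n : ℕ, ∃ y : D0 K, Nth K L R n y w ∧ (forest K L R).Reachable y w := by
    intro n
    induction n with
    | zero => exact ⟨w, Nth.zero w, SimpleGraph.Reachable.refl _⟩
    | succ n ih =>
      obtain ⟨y, h1, h2⟩ := ih
      have h3 := hcon y h2
      unfold IsOrphan at h3
      push Not at h3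
      obtain ⟨z, hz⟩ := h3
      refine ⟨z, Nth.succ hz h1, ?_⟩
      have h4 : (forest K L R).Adj z y := by
        unfold forest
        rw [SimpleGraph.fromRel_adj]
        exact ⟨parent_ne h hz, Or.inl hz⟩
      exact h4.reachable.trans h2
  obtain ⟨n, hn'⟩ := exists_nat_gt ((w : ℂ).re + 1 / (2 * (w : ℂ).im))
  obtain ⟨y, h1, -⟩ := hn n
  exact absurd (nth_le h h1) (not_le.2 hn')

/-- The matrix `(1 0; 1 1)`. -/
def L1 : SpecialLinearGroup (Fin 2) ℤ := ⟨!![1, 0; 1, 1], by simp [Matrix.det_fin_two]⟩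

/-- The matrix `(1 1; 0 1)`. -/
def R1 : SpecialLinearGroup (Fin 2) ℤ := ⟨!![1, 1; 0, 1], by simp [Matrix.det_fin_two]⟩

/-- The matrices `(1 0; 1 1)` and `(1 1; 0 1)` form a left-right pair. -/
theorem exists_pair (K : Subfield ℂ) : ∃ L R : SpecialLinearGroup (Fin 2) ℤ,
    LeftRightPair K L R := by
  have l00 : L1 0 0 = 1 := rfl
  have l01 : L1 0 1 = 0 := rfl
  have l10 : L1 1 0 = 1 := rfl
  have l11 : L1 1 1 = 1 := rfl
  have r00 : R1 0 0 = 1 := rfl
  have r01 : R1 0 1 = 1 := rfl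
  have r10 : R1 1 0 = 0 := rfl
  have r11 : R1 1 1 = 1 := rfl
  refine ⟨L1, R1, ?_, ?_, ?_, ?_, ?_⟩
  · intro i j
    fin_cases i <;> fin_cases j <;> decide
  · intro i j
    fin_cases i <;> fin_cases j <;> decide
  · intro h
    have h1 : L1 1 0 = (1 : SpecialLinearGroup (Fin 2) ℤ) 1 0 := by rw [h]
    rw [l10] at h1
    simp at h1
  · intro h
    have h1 : R1 0 1 = (1 : SpecialLinearGroup (Fin 2) ℤ) 0 1 := by rw [h]
    rw [r01] at h1
    simp at h1
  · rw [Set.disjoint_left]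
    rintro _ ⟨z, hz, rfl⟩ ⟨w, hw, he⟩
    have h1 := congrArg Complex.re he
    rw [act_re, act_re, l00, l01, l10, l11, r00, r01, r10, r11] at h1
    simp at h1
    obtain ⟨-, zx, zy⟩ := hz
    obtain ⟨-, wx, wy⟩ := hw
    have hden : 0 < (z.re + 1) ^ 2 + z.im ^ 2 := by positivity
    rw [eq_div_iff hden.ne'] at h1
    nlinarith [mul_pos wx hden]

end forest

/-- **Q1, full answer.** Let `K` be a subfield of `ℂ` not contained in `ℝ`. There is no left-right
pair `(L, R)` in `SL₂(ℕ₀)` for which the forest `F(L, R)` has a rootless component. More precisely,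
every vertex `x + y i` of the forest of a left-right pair has at most `x + 1 / (2 y)` ancestors.
(There are left-right pairs.) -/
theorem result (K : Subfield ℂ) (_hK : ∃ z ∈ K, z.im ≠ 0) :
    {p : SpecialLinearGroup (Fin 2) ℤ × SpecialLinearGroup (Fin 2) ℤ |
      LeftRightPair K p.1 p.2 ∧
        ∃ C : (forest K p.1 p.2).ConnectedComponent, Rootless C} = ∅ ∧
    (∀ L R : SpecialLinearGroup (Fin 2) ℤ, LeftRightPair K L R → ∀ w : D0 K,
      (ancestors K L R w).Finite ∧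
        ((ancestors K L R w).ncard : ℝ) ≤ (w : ℂ).re + 1 / (2 * (w : ℂ).im)) ∧
    ∃ L R : SpecialLinearGroup (Fin 2) ℤ, LeftRightPair K L R := by
  refine ⟨?_, fun L R h w => ancestors_finite h w, exists_pair K⟩
  rw [Set.eq_empty_iff_forall_notMem]
  rintro ⟨L, R⟩ ⟨h, C, hC⟩
  induction C using SimpleGraph.ConnectedComponent.ind with
  | h w =>
    obtain ⟨v, hv, ho⟩ := exists_orphan h w
    refine hC v ?_ ho
    rw [SimpleGraph.ConnectedComponent.mem_supp_iff]
    exact SimpleGraph.ConnectedComponent.sound hv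

end Pool.Agent.Results.MP_b00f03_nt.NoRootlessTrees
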